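import Pool.Agent.helper35.OT.Spec

/-! Row POL of the project OT. -/

set_option autoImplicit false

namespace Pool.Agent.helper35.OT

open Finset

theorem POL_coeff (k : ℕ) (e : ℕ → ℕ → ℤ) (i j : ℕ) (hi : i ≤ k) (hj : j ≤ k) :
    ((pol k e).coeff j).coeff i = (e i j : ℚ) := by
  unfold pol
  rw [Polynomial.finsetSum_coeff]
  rw [Finset.sum_eq_single j]
  · rw [Polynomial.coeff_C_mul, Polynomial.coeff_X_pow, if_pos rfl, mul_one,
      Polynomial.finsetSum_coeff, Finset.sum_eq_single i]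
    · rw [Polynomial.coeff_C_mul, Polynomial.coeff_X_pow, if_pos rfl, mul_one]
    · intro b _ hb
      rw [Polynomial.coeff_C_mul, Polynomial.coeff_X_pow, if_neg hb.symm, mul_zero]
    · intro h
      exact absurd (Finset.mem_range.2 (by omega)) h
  · intro b _ hb
    rw [Polynomial.coeff_C_mul, Polynomial.coeff_X_pow, if_neg hb.symm, mul_zero]
  · intro h
    exact absurd (Finset.mem_range.2 (by omega)) h

theorem POL_C (x : ℂ) (q : ℚ) : phx x (Polynomial.C q) = (q : ℂ) := by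
  unfold phx
  rw [Polynomial.coe_eval₂RingHom, Polynomial.eval₂_C]
  rfl

theorem POL_X (x : ℂ) : phx x Polynomial.X = x := by
  unfold phx
  rw [Polynomial.coe_eval₂RingHom, Polynomial.eval₂_X]

theorem POL_eval (k : ℕ) (e : ℕ → ℕ → ℤ) (x z : ℝ) :
    (pol k e).eval₂ (phx (x : ℂ)) (z : ℂ) = ((val k e x z : ℝ) : ℂ) := by
  unfold pol val
  rw [Polynomial.eval₂_finsetSum]
  have h : ∀ j, (Polynomial.C (∑ i ∈ range (k + 1), Polynomial.C (e i j : ℚ) * Polynomial.X ^ i) *
      Polynomial.X ^ j : Polynomial (Polynomial ℚ)).eval₂ (phx (x : ℂ)) (z : ℂ) =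
      ∑ i ∈ range (k + 1), (e i j : ℂ) * (x : ℂ) ^ i * (z : ℂ) ^ j := by
    intro j
    rw [Polynomial.eval₂_mul, Polynomial.eval₂_C, Polynomial.eval₂_pow, Polynomial.eval₂_X, map_sum,
      Finset.sum_mul]
    refine Finset.sum_congr rfl fun i _ => ?_
    rw [map_mul, map_pow, POL_C, POL_X, Rat.cast_intCast]
  rw [Finset.sum_congr rfl fun j _ => h j, Finset.sum_comm]
  push_cast
  rfl

theorem POL : POL_stmt := by
  refine ⟨?_, POL_eval⟩
  rintro k e ⟨i, hi, j, hj, hne⟩ h0
  have h := POL_coeff k e i j hi hj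
  rw [h0, Polynomial.coeff_zero, Polynomial.coeff_zero] at h
  exact hne (by exact_mod_cast h.symm)

end Pool.Agent.helper35.OT
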